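import Mathlib
import Pool.Agent.H15.MixedDet

/-!
# MP_378045_ag: a real stable homogeneous polynomial which is not a mixed determinant
-/

set_option autoImplicit false

namespace Pool.Agent.Results.MP_378045_ag.NotMixedDet

open MvPolynomial
open scoped ComplexOrder

/-- `η(A₁, …, A_m)`: the sum, over all ordered `m`-tuples of pairwise disjoint subsets of
`{1, …, n}` whose union is everything, of the product of the principal minors `det (A_j[S_j])`. -/
noncomputable def eta {R : Type*} [CommRing R] {m n : ℕ} (A : Fin m → Matrix (Fin n) (Fin n) R) :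
    R :=
  ∑ S ∈ (Finset.univ : Finset (Fin m → Finset (Fin n))).filter (fun S =>
      (∀ i j, i ≠ j → Disjoint (S i) (S j)) ∧ Finset.univ.biUnion S = Finset.univ),
    ∏ j, ((A j).submatrix (fun i : S j => (i : Fin n)) (fun i : S j => (i : Fin n))).det

/-- The pencil `A₁ z₁ + … + A_ℓ z_ℓ` (no constant term), a matrix of polynomials. -/
noncomputable def pencil {l n : ℕ} (A : Fin l → Matrix (Fin n) (Fin n) ℂ) :
    Matrix (Fin n) (Fin n) (MvPolynomial (Fin l) ℂ) :=
  Matrix.of (fun a b => ∑ k, C (A k a b) * X k)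

/-- `f` is real stable: `f ≠ 0` and `f` has no zero with all coordinates in the open upper
half-plane. -/
def RealStable {l : ℕ} (f : MvPolynomial (Fin l) ℝ) : Prop :=
  f ≠ 0 ∧ ∀ z : Fin l → ℂ, (∀ k, 0 < (z k).im) → aeval z f ≠ 0

lemma minor_univ {R : Type*} [CommRing R] (A : Matrix (Fin 2) (Fin 2) R) (S : Finset (Fin 2))
    (h : S = Finset.univ) :
    (A.submatrix (fun i : S => (i : Fin 2)) (fun i : S => (i : Fin 2))).det =
      A 0 0 * A 1 1 - A 0 1 * A 1 0 := by
  subst h
  have := Matrix.det_submatrix_equiv_self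
    (Equiv.subtypeUnivEquiv (fun x : Fin 2 => Finset.mem_univ x)) A
  rw [Matrix.det_fin_two] at this
  exact this

lemma minor_single {R : Type*} [CommRing R] (A : Matrix (Fin 2) (Fin 2) R) (S : Finset (Fin 2))
    (a : Fin 2) (h : S = {a}) :
    (A.submatrix (fun i : S => (i : Fin 2)) (fun i : S => (i : Fin 2))).det = A a a := by
  subst h
  rw [Matrix.det_unique]
  simp

lemma minor_empty {R : Type*} [CommRing R] (A : Matrix (Fin 2) (Fin 2) R) (S : Finset (Fin 2))
    (h : S = ∅) :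
    (A.submatrix (fun i : S => (i : Fin 2)) (fun i : S => (i : Fin 2))).det = 1 := by
  subst h
  exact Matrix.det_isEmpty

/-- the tuple of sets with `0 ∈ S a` and `1 ∈ S b` -/
def tup {m : ℕ} (ab : Fin m × Fin m) : Fin m → Finset (Fin 2) :=
  fun j => (if j = ab.1 then {0} else ∅) ∪ (if j = ab.2 then {1} else ∅)

lemma tup_mem0 {m : ℕ} (ab : Fin m × Fin m) (j : Fin m) : (0 : Fin 2) ∈ tup ab j ↔ j = ab.1 := by
  unfold tup
  rw [Finset.mem_union]
  split_ifs with h1 h2 h2 <;> simp [h1]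

lemma tup_mem1 {m : ℕ} (ab : Fin m × Fin m) (j : Fin m) : (1 : Fin 2) ∈ tup ab j ↔ j = ab.2 := by
  unfold tup
  rw [Finset.mem_union]
  split_ifs with h1 h2 h2 <;> simp [h2]

lemma tup_prod {R : Type*} [CommRing R] {m : ℕ} (A : Fin m → Matrix (Fin 2) (Fin 2) R)
    (a b : Fin m) :
    ∏ j, ((A j).submatrix (fun i : tup (a, b) j => (i : Fin 2))
      (fun i : tup (a, b) j => (i : Fin 2))).det =
      A a 0 0 * A b 1 1 - (if a = b then A a 0 1 * A a 1 0 else 0) := by
  by_cases hab : a = b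
  · subst hab
    rw [Finset.prod_eq_single a]
    · rw [minor_univ _ _ (by unfold tup; simp; decide)]
      simp
    · intro j _ hj
      rw [minor_empty _ _ (by unfold tup; simp [hj])]
    · intro h; exact absurd (Finset.mem_univ a) h
  · rw [← Finset.prod_subset (Finset.subset_univ ({a, b} : Finset (Fin m))),
      Finset.prod_pair hab, minor_single _ _ 0 (by unfold tup; simp [hab]),
      minor_single _ _ 1 (by unfold tup; simp [Ne.symm hab]), if_neg hab, sub_zero]
    intro j _ hj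
    simp only [Finset.mem_insert, Finset.mem_singleton, not_or] at hj
    rw [minor_empty _ _ (by unfold tup; simp [hj.1, hj.2])]

lemma eta_two {R : Type*} [CommRing R] {m : ℕ} (A : Fin m → Matrix (Fin 2) (Fin 2) R) :
    eta A = (∑ i, A i 0 0) * (∑ i, A i 1 1) - ∑ i, A i 0 1 * A i 1 0 := by
  unfold eta
  have h : (Finset.univ : Finset (Fin m → Finset (Fin 2))).filter (fun S =>
      (∀ i j, i ≠ j → Disjoint (S i) (S j)) ∧ Finset.univ.biUnion S = Finset.univ) =
      (Finset.univ : Finset (Fin m × Fin m)).image tup := by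
    ext S
    simp only [Finset.mem_filter, Finset.mem_univ, true_and, Finset.mem_image]
    constructor
    · rintro ⟨h1, h2⟩
      have m0 : (0 : Fin 2) ∈ Finset.univ.biUnion S := by rw [h2]; exact Finset.mem_univ _
      have m1 : (1 : Fin 2) ∈ Finset.univ.biUnion S := by rw [h2]; exact Finset.mem_univ _
      rw [Finset.mem_biUnion] at m0 m1
      obtain ⟨a, _, ha⟩ := m0
      obtain ⟨b, _, hb⟩ := m1
      refine ⟨(a, b), ?_⟩
      funext j
      ext x
      have e0 : (0 : Fin 2) ∈ S j ↔ j = a := by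
        constructor
        · intro h
          by_contra hne
          exact Finset.disjoint_left.1 (h1 j a hne) h ha
        · rintro rfl; exact ha
      have e1 : (1 : Fin 2) ∈ S j ↔ j = b := by
        constructor
        · intro h
          by_contra hne
          exact Finset.disjoint_left.1 (h1 j b hne) h hb
        · rintro rfl; exact hb
      fin_cases x
      · exact (tup_mem0 (a, b) j).trans e0.symm
      · exact (tup_mem1 (a, b) j).trans e1.symm
    · rintro ⟨⟨a, b⟩, rfl⟩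
      constructor
      · intro i j hij
        rw [Finset.disjoint_left]
        intro x hx hx'
        fin_cases x
        · exact hij (((tup_mem0 (a, b) i).1 hx).trans ((tup_mem0 (a, b) j).1 hx').symm)
        · exact hij (((tup_mem1 (a, b) i).1 hx).trans ((tup_mem1 (a, b) j).1 hx').symm)
      · rw [Finset.eq_univ_iff_forall]
        intro x
        rw [Finset.mem_biUnion]
        fin_cases x
        · exact ⟨a, Finset.mem_univ _, (tup_mem0 (a, b) a).2 rfl⟩
        · exact ⟨b, Finset.mem_univ _, (tup_mem1 (a, b) b).2 rfl⟩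
  rw [h, Finset.sum_image]
  · rw [← Finset.univ_product_univ, Finset.sum_product]
    simp only [tup_prod, Finset.sum_sub_distrib, Finset.sum_ite_eq, Finset.mem_univ, if_true]
    rw [Finset.sum_mul_sum]
  · intro x _ y _ hxy
    have h0 := (tup_mem0 x x.1).2 rfl
    have h1 := (tup_mem1 x x.2).2 rfl
    rw [hxy] at h0 h1
    exact Prod.ext ((tup_mem0 y x.1).1 h0) ((tup_mem1 y x.2).1 h1)

/-- the polynomial -/
noncomputable def f₀ : MvPolynomial (Fin 21) ℝ :=
  C 1000000 * (∑ k : Fin 21, X k) ^ 2 + (∑ k : Fin 21, C ((k:ℕ):ℝ) * X k) ^ 2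
    + (∑ k : Fin 21, C (((k:ℕ):ℝ) ^ 2) * X k) ^ 2
    - ∑ k : Fin 21, C (1000000 + ((k:ℕ):ℝ) ^ 2 + ((k:ℕ):ℝ) ^ 4) * X k ^ 2

lemma f₀_real (y : Fin 21 → ℝ) : eval y f₀ = H15.MixedDet.fR y := by
  unfold f₀ H15.MixedDet.fR
  simp

lemma f₀_complex (y : Fin 21 → ℝ) : aeval (fun k => (y k : ℂ)) f₀ = (H15.MixedDet.fR y : ℂ) := by
  unfold f₀ H15.MixedDet.fR
  simp

lemma gen_re (M : ℝ) (b c d : Fin 21 → ℝ) (z : Fin 21 → ℂ) :
    (aeval z (C M * (∑ k : Fin 21, X k) ^ 2 + (∑ k : Fin 21, C (b k) * X k) ^ 2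
      + (∑ k : Fin 21, C (c k) * X k) ^ 2 - ∑ k : Fin 21, C (d k) * X k ^ 2 :
        MvPolynomial (Fin 21) ℝ)).re =
    (M * (∑ k, (z k).re) ^ 2 + (∑ k, b k * (z k).re) ^ 2 + (∑ k, c k * (z k).re) ^ 2
      - ∑ k, d k * (z k).re ^ 2) -
    (M * (∑ k, (z k).im) ^ 2 + (∑ k, b k * (z k).im) ^ 2 + (∑ k, c k * (z k).im) ^ 2
      - ∑ k, d k * (z k).im ^ 2) := by
  simp only [map_sub, map_add, map_mul, map_pow, map_sum, aeval_C, aeval_X]
  simp [sq, Finset.sum_sub_distrib, mul_sub]
  ring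

lemma gen_im (M : ℝ) (b c d : Fin 21 → ℝ) (z : Fin 21 → ℂ) :
    (aeval z (C M * (∑ k : Fin 21, X k) ^ 2 + (∑ k : Fin 21, C (b k) * X k) ^ 2
      + (∑ k : Fin 21, C (c k) * X k) ^ 2 - ∑ k : Fin 21, C (d k) * X k ^ 2 :
        MvPolynomial (Fin 21) ℝ)).im =
    2 * (M * ((∑ k, (z k).re) * (∑ k, (z k).im)) + (∑ k, b k * (z k).re) * (∑ k, b k * (z k).im)
      + (∑ k, c k * (z k).re) * (∑ k, c k * (z k).im) - ∑ k, d k * ((z k).re * (z k).im)) := by
  have h : ∑ k, (d k : ℝ) * ((z k).re * (z k).im + (z k).im * (z k).re) =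
      2 * ∑ k, d k * ((z k).re * (z k).im) := by
    rw [Finset.mul_sum]
    refine Finset.sum_congr rfl fun k _ => ?_
    ring
  simp only [map_sub, map_add, map_mul, map_pow, map_sum, aeval_C, aeval_X]
  simp [sq]
  rw [h]
  ring

lemma f₀_re (z : Fin 21 → ℂ) : (aeval z f₀).re =
    H15.MixedDet.fR (fun k => (z k).re) - H15.MixedDet.fR (fun k => (z k).im) :=
  gen_re 1000000 (fun k => ((k:ℕ):ℝ)) (fun k => ((k:ℕ):ℝ) ^ 2)
    (fun k => 1000000 + ((k:ℕ):ℝ) ^ 2 + ((k:ℕ):ℝ) ^ 4) z

lemma f₀_im (z : Fin 21 → ℂ) : (aeval z f₀).im =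
    2 * H15.MixedDet.BR (fun k => (z k).re) (fun k => (z k).im) :=
  gen_im 1000000 (fun k => ((k:ℕ):ℝ)) (fun k => ((k:ℕ):ℝ) ^ 2)
    (fun k => 1000000 + ((k:ℕ):ℝ) ^ 2 + ((k:ℕ):ℝ) ^ 4) z

lemma f₀_stable : RealStable f₀ := by
  constructor
  · intro h
    have h1 := H15.MixedDet.pos_of_pos (fun _ => 1) (fun _ => one_pos)
    rw [← f₀_real, h] at h1
    simp at h1
  · intro z hz h
    apply H15.MixedDet.no_zero (fun k => (z k).re) (fun k => (z k).im) hz
    · rw [← f₀_re, h]; rfl
    · have := f₀_im z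
      rw [h] at this
      simp at this
      exact this

lemma f₀_hom : f₀.IsHomogeneous 2 := by
  have hX : ∀ c : Fin 21 → ℝ, (∑ k : Fin 21, C (c k) * X k : MvPolynomial (Fin 21) ℝ).IsHomogeneous 1 := by
    intro c
    apply IsHomogeneous.sum
    intro k _
    have := (isHomogeneous_C (Fin 21) (c k)).mul (isHomogeneous_X ℝ k)
    simpa using this
  have hX1 : (∑ k : Fin 21, X k : MvPolynomial (Fin 21) ℝ).IsHomogeneous 1 := by
    apply IsHomogeneous.sum
    intro k _
    exact isHomogeneous_X ℝ k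
  unfold f₀
  apply IsHomogeneous.sub
  · apply IsHomogeneous.add
    · apply IsHomogeneous.add
      · have := (isHomogeneous_C (Fin 21) (1000000:ℝ)).mul (hX1.pow 2)
        simpa using this
      · have := (hX (fun k => ((k:ℕ):ℝ))).pow 2
        simpa using this
    · have := (hX (fun k => ((k:ℕ):ℝ) ^ 2)).pow 2
      simpa using this
  · apply IsHomogeneous.sum
    intro k _
    have := (isHomogeneous_C (Fin 21) (1000000 + ((k:ℕ):ℝ) ^ 2 + ((k:ℕ):ℝ) ^ 4)).mul
      ((isHomogeneous_X ℝ k).pow 2)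
    simpa using this

/-- There is a real stable homogeneous polynomial (of degree `2`, in `21` variables) which is not
of the form `η(L₁, …, L_m)` for any `m` and any pencils `L_j = ∑ A_{jk} z_k` with `2 × 2` positive
semidefinite coefficients and no constant term. -/
theorem result : ∃ (l n : ℕ) (f : MvPolynomial (Fin l) ℝ), RealStable f ∧ f.IsHomogeneous n ∧
    ∀ (m : ℕ) (A : Fin m → Fin l → Matrix (Fin n) (Fin n) ℂ), (∀ j k, (A j k).PosSemidef) →
      MvPolynomial.map (algebraMap ℝ ℂ) f ≠ eta (fun j => pencil (A j)) := by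
  refine ⟨21, 2, f₀, f₀_stable, f₀_hom, ?_⟩
  intro m A hA hf
  have hherm : ∀ j k, A j k 1 0 = star (A j k 0 1) := fun j k => ((hA j k).1.apply 1 0).symm
  have d0 : ∀ j k, 0 ≤ A j k 0 0 := fun j k => (hA j k).diag_nonneg
  have d1 : ∀ j k, 0 ≤ A j k 1 1 := fun j k => (hA j k).diag_nonneg
  have dd : ∀ j k, 0 ≤ (A j k).det := fun j k => (hA j k).det_nonneg
  apply H15.MixedDet.core m (fun j k => (A j k 0 0).re) (fun j k => (A j k 1 1).re)
    (fun j k => A j k 0 1)
  · intro j k; exact (Complex.le_def.1 (d0 j k)).1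
  · intro j k; exact (Complex.le_def.1 (d1 j k)).1
  · intro j k
    have h1 := (Complex.le_def.1 (dd j k)).1
    rw [Matrix.det_fin_two, hherm] at h1
    have i0 := (Complex.le_def.1 (d0 j k)).2
    have i1 := (Complex.le_def.1 (d1 j k)).2
    rw [← Complex.normSq_eq_norm_sq, Complex.normSq_apply]
    simp at h1 i0 i1
    rw [← i0, ← i1] at h1
    linarith
  · intro y
    have h1 := congrArg (eval (fun k => (y k : ℂ))) hf
    rw [eta_two] at h1
    have h2 : eval (fun k => (y k : ℂ)) (MvPolynomial.map (algebraMap ℝ ℂ) f₀) =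
        (H15.MixedDet.fR y : ℂ) := by
      rw [← f₀_complex, eval_map]
      rfl
    rw [h2] at h1
    have h3 := congrArg Complex.re h1
    rw [Complex.ofReal_re] at h3
    rw [h3]
    have ev : ∀ (i : Fin m) (a b : Fin 2), eval (fun k => (y k : ℂ)) (pencil (A i) a b) =
        ∑ k, A i k a b * (y k : ℂ) := by
      intro i a b
      simp [pencil]
    simp only [map_sub, map_mul, map_sum, ev]
    have e0 : ∑ i, ∑ k, A i k 0 0 * (y k : ℂ) = ((∑ i, ∑ k, (A i k 0 0).re * y k : ℝ) : ℂ) := by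
      push_cast
      refine Finset.sum_congr rfl fun i _ => Finset.sum_congr rfl fun k _ => ?_
      congr 1
      apply Complex.ext
      · simp
      · simpa using (Complex.le_def.1 (d0 i k)).2.symm
    have e1 : ∑ i, ∑ k, A i k 1 1 * (y k : ℂ) = ((∑ i, ∑ k, (A i k 1 1).re * y k : ℝ) : ℂ) := by
      push_cast
      refine Finset.sum_congr rfl fun i _ => Finset.sum_congr rfl fun k _ => ?_
      congr 1
      apply Complex.ext
      · simp
      · simpa using (Complex.le_def.1 (d1 i k)).2.symm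
    have e2 : ∀ i, (∑ k, A i k 0 1 * (y k : ℂ)) * (∑ k, A i k 1 0 * (y k : ℂ)) =
        ((‖∑ k, A i k 0 1 * (y k : ℂ)‖ ^ 2 : ℝ) : ℂ) := by
      intro i
      have : ∑ k, A i k 1 0 * (y k : ℂ) = (starRingEnd ℂ) (∑ k, A i k 0 1 * (y k : ℂ)) := by
        rw [map_sum]
        refine Finset.sum_congr rfl fun k _ => ?_
        rw [hherm, map_mul, Complex.conj_ofReal]
        rfl
      rw [this, Complex.mul_conj, Complex.normSq_eq_norm_sq]
    simp only [e2]
    rw [e0, e1, ← Complex.ofReal_mul, ← Complex.ofReal_sum, ← Complex.ofReal_sub,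
      Complex.ofReal_re]

end Pool.Agent.Results.MP_378045_ag.NotMixedDet
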